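import Mathlib
import Pool.Agent.Y251.SF.Stm3
import Pool.Agent.Y769.SC.Kap

/-! `S_KAP2` (project SF of helper251) -/

set_option autoImplicit false

open Complex Metric Set Filter Topology

namespace Pool.Agent.Y458.SF

open Pool.Agent.Y245.SC Pool.Agent.Y251.SF

private lemma term_le2 (a : ℝ) (ha : 0 ≤ a) (x : ℂ) (k : ℕ) :
    ‖(-(a : ℂ)) ^ (k + 1) * x ^ k / ((k.factorial : ℂ) * ((k + 2).factorial : ℂ))‖ ≤
      a / 2 * ((a * ‖x‖) ^ k / (k.factorial : ℝ)) := by
  rw [norm_div, norm_mul, norm_pow, norm_neg, norm_pow, norm_mul, Complex.norm_natCast,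
    Complex.norm_natCast, Complex.norm_real, Real.norm_eq_abs, abs_of_nonneg ha]
  have h1 : (0 : ℝ) < (k.factorial : ℝ) := by exact_mod_cast Nat.factorial_pos k
  have h2 : (2 : ℝ) ≤ ((k + 2).factorial : ℝ) := by
    have : Nat.factorial 2 ≤ (k + 2).factorial := Nat.factorial_le (by omega)
    have h3 : (2 : ℕ) ≤ (k + 2).factorial := by simpa using this
    exact_mod_cast h3
  have h3 : a / 2 * ((a * ‖x‖) ^ k / (k.factorial : ℝ)) =
      a ^ (k + 1) * ‖x‖ ^ k / ((k.factorial : ℝ) * 2) := by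
    rw [mul_pow, pow_succ]
    field_simp
  rw [h3]
  apply div_le_div_of_nonneg_left (by positivity) (by positivity)
  exact mul_le_mul_of_nonneg_left h2 h1.le

theorem kap2 : S_KAP2 := by
  intro a x ha
  have hs : HasSum (fun k : ℕ => a / 2 * ((a * ‖x‖) ^ k / (k.factorial : ℝ)))
      (a / 2 * Real.exp (a * ‖x‖)) := by
    apply HasSum.mul_left
    rw [Real.exp_eq_exp_ℝ]
    exact NormedSpace.expSeries_div_hasSum_exp (a * ‖x‖)
  have h := (Pool.Agent.Y769.SC.kap a ha).2.2 x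
  rw [← h.tsum_eq]
  exact tsum_of_norm_bounded hs (term_le2 a ha x)

end Pool.Agent.Y458.SF
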